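import Pool.Agent.Helper90.TS.All

/-!
# MP_79eb7e_lc: good types over almost homogeneous `Q` are tau-stable

`C = C^eq` is the monster model of `T = Th(C)`, presented as the increasing union of the
`0`-definable sets `S N` (the union of the first `N` sorts).
-/

set_option autoImplicit false

namespace Pool.Agent.Results.MP_79eb7e_lc.AlmostHomogeneous

open Pool.Agent.Helper90.TS

theorem result (L : FirstOrder.Language.{0, 0}) (C : Type) [L.Structure C] (S : ℕ → Set C)
    (hC : Monster L C S) (hsmall : SmallTh L C) (hstable : StableTh L C S)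
    (Φ : ℕ → Set C) (hΦ : ∀ i, (∅ : Set C).Definable₁ L (Φ i)) (hΦS : ∀ i, ∃ N, Φ i ⊆ S N)
    (homega : OmegaStableOn L (⋃ i, Φ i))
    (M : L.ElementarySubstructure C) (hM : (M : Set C).Countable)
    (Q : Set C) (hQ : Q = (M : Set C) ∩ ⋃ i, Φ i)
    (a : Set C) (haQ : a ⊆ Q) (ha : a.Finite) (hQa : AlmostHom L Q a)
    (n : ℕ) (p : Typ L Q n) (hp : Good L (⋃ i, Φ i) Q p) : TauBased L a p :=
  final L C S hC hsmall hstable Φ hΦ hΦS homega M hM Q hQ a haQ ha hQa n p hp

end Pool.Agent.Results.MP_79eb7e_lc.AlmostHomogeneous
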