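import Pool.Agent.Helper90.MZ.All

/-!
# MP_79eb7e_lc: every good type is tau-stable (full answer to Q1)

`C = C^eq` is the monster model of `T = Th(C)`, presented as the increasing union of the
`0`-definable sets `S N` (the union of the first `N` sorts).
-/

set_option autoImplicit false

namespace Pool.Agent.Results.MP_79eb7e_lc.TauStable

open Pool.Agent.Helper90.TS
open FirstOrder Language

theorem result (L : FirstOrder.Language.{0, 0}) (C : Type) [L.Structure C] (S : ℕ → Set C)
    (hC : Monster L C S) (hsmall : SmallTh L C) (hstable : StableTh L C S)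
    (hfew : ∀ F : (ℕ → Bool) → L.ElementarySubstructure C, (∀ s, (F s : Set C).Countable) →
      ∃ s t, s ≠ t ∧ Nonempty (F s ≃[L] F t))
    (Φ : ℕ → Set C) (hΦ : ∀ i, (∅ : Set C).Definable₁ L (Φ i)) (hΦS : ∀ i, ∃ N, Φ i ⊆ S N)
    (homega : OmegaStableOn L (⋃ i, Φ i))
    (M : L.ElementarySubstructure C) (hM : (M : Set C).Countable)
    (Q : Set C) (hQ : Q = (M : Set C) ∩ ⋃ i, Φ i)
    (n : ℕ) (p : Typ L Q n) (hp : Good L (⋃ i, Φ i) Q p) :
    ∃ a : Set C, a ⊆ Q ∧ a.Finite ∧ TauBased L a p :=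
  Pool.Agent.Helper90.MZ.full L C S hC hsmall hstable hfew Φ hΦ hΦS homega M hM Q hQ n p hp

end Pool.Agent.Results.MP_79eb7e_lc.TauStable
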